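import Mathlib
import Pool.Agent.H50.Tor2

namespace Pool.Agent.Results.MP_d6b0b9_al.Level

open Finset MvPolynomial Pool.Agent.H50.Tor

variable {n : ℕ}

/-- The Stanley-Reisner ideal of the complex of independent sets of `M`. -/
noncomputable def SR (K : Type) [Field K] (M : Matroid (Fin n)) :
    Ideal (MvPolynomial (Fin n) K) :=
  Ideal.span {f | ∃ F : Finset (Fin n), ¬ M.Indep F ∧ f = ∏ i ∈ F, X i}

/-- The second symbolic power: the intersection of the squares of the minimal primes. -/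
noncomputable def symb2 {R : Type} [CommRing R] (I : Ideal R) : Ideal R :=
  ⨅ p ∈ I.minimalPrimes, p ^ 2

variable {K : Type} [Field K]

lemma px_prime (D : Set (Fin n)) :
    (Ideal.span (X '' D : Set (MvPolynomial (Fin n) K))).IsPrime := by
  classical
  set φ : MvPolynomial (Fin n) K →ₐ[K] MvPolynomial (Fin n) K :=
    aeval fun i => if i ∈ D then 0 else X i with hφ
  have h : ∀ f, f - φ f ∈ Ideal.span (X '' D : Set (MvPolynomial (Fin n) K)) := fun f => by
    induction f using MvPolynomial.induction_on with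
    | C a => simp [hφ]
    | add p q hp hq => rw [map_add, add_sub_add_comm]; exact add_mem hp hq
    | mul_X p i hp =>
      rw [map_mul, hφ, aeval_X]
      split_ifs with x
      · rw [mul_zero, sub_zero]
        exact Ideal.mul_mem_left _ _ (Ideal.subset_span ⟨i, x, rfl⟩)
      · rw [← sub_mul]; exact Ideal.mul_mem_right _ _ hp
  have e : Ideal.span (X '' D : Set (MvPolynomial (Fin n) K)) = RingHom.ker φ := by
    refine le_antisymm (Ideal.span_le.2 ?_) fun f hf => ?_
    · rintro _ ⟨i, x, rfl⟩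
      simp [hφ, x]
    · have := h f
      rwa [RingHom.mem_ker.1 hf, sub_zero] at this
  rw [e]; exact RingHom.ker_isPrime _

open Pointwise in
lemma mem_sq (D : Set (Fin n)) (f : MvPolynomial (Fin n) K) :
    f ∈ Ideal.span (X '' D) ^ 2 ↔
      ∀ m ∈ f.support, ∃ i ∈ D, ∃ j ∈ D, Finsupp.single i 1 + Finsupp.single j 1 ≤ m := by
  have e : (X '' D : Set (MvPolynomial (Fin n) K)) * (X '' D : Set (MvPolynomial (Fin n) K)) =
      (fun s => monomial s (1 : K)) ''
      {s | ∃ i ∈ D, ∃ j ∈ D, s = Finsupp.single i 1 + Finsupp.single j 1} := by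
    ext g
    constructor
    · rintro ⟨_, ⟨i, hi, rfl⟩, _, ⟨j, hj, rfl⟩, rfl⟩
      exact ⟨_, ⟨i, hi, j, hj, rfl⟩, by simp [X, monomial_mul]⟩
    · rintro ⟨_, ⟨i, hi, j, hj, rfl⟩, rfl⟩
      exact ⟨_, ⟨i, hi, rfl⟩, _, ⟨j, hj, rfl⟩, by simp [X, monomial_mul]⟩
  rw [sq, Ideal.span_mul_span', e, mem_ideal_span_monomial_image]
  refine forall₂_congr fun m _ => ⟨?_, ?_⟩
  · rintro ⟨_, ⟨i, hi, j, hj, rfl⟩, h⟩; exact ⟨i, hi, j, hj, h⟩
  · rintro ⟨i, hi, j, hj, h⟩; exact ⟨_, ⟨i, hi, j, hj, rfl⟩, h⟩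

lemma mem_symb (M : Matroid (Fin n)) (hE : M.E = Set.univ) (f : MvPolynomial (Fin n) K) :
    f ∈ symb2 (SR K M) ↔ ∀ D, M✶.IsBase D → f ∈ Ideal.span (X '' D) ^ 2 := by
  classical
  simp only [symb2, Ideal.mem_iInf]
  constructor
  · intro h D hD
    have := px_prime (K := K) D
    have : SR K M ≤ Ideal.span (X '' D) := Ideal.span_le.2 <| by
      rintro _ ⟨F, hF, rfl⟩
      obtain ⟨i, hi, x⟩ := Set.not_subset.1 fun w => hF (hD.compl_isBase_of_dual.indep.subset w)
      exact Ideal.mem_of_dvd _ (dvd_prod_of_mem _ hi)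
        (Ideal.subset_span ⟨i, by simpa [hE] using x, rfl⟩)
    obtain ⟨p, hp, hle⟩ := Ideal.exists_minimalPrimes_le this
    exact Ideal.pow_right_mono hle 2 (h p hp)
  · intro h p hp
    have := hp.1.1
    have hT : M.Indep (univ.filter fun i => X i ∉ p : Finset (Fin n)) := by
      by_contra x
      obtain ⟨i, hi, y⟩ := Ideal.IsPrime.prod_mem_iff.1 (hp.1.2 (Ideal.subset_span ⟨_, x, rfl⟩))
      exact (mem_filter.1 hi).2 y
    obtain ⟨B, hB, hTB⟩ := hT.exists_isBase_superset
    refine Ideal.pow_right_mono (Ideal.span_le.2 ?_) 2 (h _ hB.compl_isBase_dual)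
    rintro _ ⟨i, hi, rfl⟩
    by_contra x
    exact hi.2 (hTB (by simpa using x))

noncomputable def rk (N : Matroid (Fin n)) (S : Finset (Fin n)) : ℕ := (N.eRk S).toNat

lemma rk_coe (N : Matroid (Fin n)) (S : Finset (Fin n)) : (rk N S : ℕ∞) = N.eRk S :=
  ENat.natCast_toNat (ne_top_of_le_ne_top S.finite_toSet.encard_lt_top.ne (N.eRk_le_encard _))

lemma rk_ok (N : Matroid (Fin n)) (hE : N.E = Set.univ) : Rk (rk N) where
  mono S T h := by
    rw [← Nat.cast_le (α := ℕ∞), rk_coe, rk_coe]; exact N.eRk_mono h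
  ins e S := by
    rw [← Nat.cast_le (α := ℕ∞)]; push_cast
    rw [rk_coe, rk_coe, coe_insert]; exact N.eRk_insert_le_add_one _ _
  irr e S T h he := by
    have : e ∈ N.closure S := by
      by_contra x
      have y := Matroid.eRk_insert_eq_add_one (M := N) (X := S) (e := e) ⟨by simp [hE], x⟩
      rw [← coe_insert, ← rk_coe, ← rk_coe] at y
      have : rk N (insert e S) = rk N S + 1 := by exact_mod_cast y
      omega
    rw [← Nat.cast_le (α := ℕ∞), rk_coe, rk_coe, coe_insert, ← N.eRk_closure_eq,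
      Matroid.closure_insert_eq_of_mem_closure (N.closure_subset_closure h this),
      N.eRk_closure_eq]

lemma span_iff (N : Matroid (Fin n)) (hE : N.E = Set.univ) (S : Finset (Fin n)) :
    rk N univ ≤ rk N S ↔ N.Spanning S := by
  rw [Matroid.spanning_iff_eRk_le (by simp [hE]), ← Nat.cast_le (α := ℕ∞), rk_coe, rk_coe,
    coe_univ, ← hE, N.eRk_ground]

lemma out_iff (N : Matroid (Fin n)) (hE : N.E = Set.univ) (b : Fin n →₀ ℕ) :
    (¬ ∀ D, N.IsBase D → ∃ i ∈ D, ∃ j ∈ D, Finsupp.single i 1 + Finsupp.single j 1 ≤ b) ↔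
      Out (rk N) (rk N univ) b := by
  have le : ∀ i j : Fin n, Finsupp.single i 1 + Finsupp.single j 1 ≤ b ↔
      if i = j then 2 ≤ b i else 1 ≤ b i ∧ 1 ≤ b j := fun i j => by
    split_ifs with x
    · rw [← x, ← Finsupp.single_add, Finsupp.single_le_iff]
    · refine ⟨fun h => ⟨by simpa [x] using h i, by simpa [x] using h j⟩, fun h k => ?_⟩
      simp only [Finsupp.add_apply, Finsupp.single_apply]
      split_ifs with y z z <;> subst_vars <;> first | exact absurd rfl x | omega
  simp only [le]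
  push Not
  have sp : ∀ {D : Set (Fin n)} {S : Finset (Fin n)}, N.IsBase D → D ⊆ S → rk N univ ≤ rk N S :=
    fun hD h => (span_iff N hE _).2 (hD.spanning_of_superset h (by simp [hE]))
  constructor
  · rintro ⟨D, hD, h⟩
    refine ⟨?_, sp hD fun i hi => ?_⟩
    · by_cases x : ∃ o ∈ D, b o ≠ 0
      · obtain ⟨o, ho, x⟩ := x
        refine (sp hD fun i hi => ?_).trans ((rk_ok N hE).ins o _)
        have := h i hi o ho
        by_cases y : i = o
        · simp [y]
        · rw [if_neg y] at this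
          have : b i = 0 := by omega
          simp [this]
      · push Not at x
        exact (sp hD fun i hi => by simp [x i hi]).trans (Nat.le_succ _)
    · have := h i hi i hi
      rw [if_pos rfl] at this
      have : b i ≤ 1 := by omega
      simp [this]
  · rintro ⟨h1, h2⟩
    by_cases x : rk N univ ≤ rk N (univ.filter fun i => b i = 0)
    · obtain ⟨D, hD, h⟩ := ((span_iff N hE _).1 x).exists_isBase_subset
      refine ⟨D, hD, fun i hi j _ => ?_⟩
      have : b i = 0 := by simpa using h hi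
      split_ifs <;> omega
    · obtain ⟨o, ho, y⟩ := Matroid.exists_eRk_insert_eq_add_one_of_lt (M := N)
        (X := (univ.filter fun i => b i = 0 : Finset (Fin n)))
        (Y := (univ.filter fun i => b i ≤ 1 : Finset (Fin n)))
        (by rw [← rk_coe, ← rk_coe, Nat.cast_lt]; omega)
      rw [← coe_insert, ← rk_coe, ← rk_coe] at y
      norm_cast at y
      obtain ⟨D, hD, h⟩ := ((span_iff N hE _).1 (h1.trans y.ge)).exists_isBase_subset
      refine ⟨D, hD, fun i hi j hj => ?_⟩
      have a1 : i = o ∨ b i = 0 := by simpa using h hi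
      have a2 : j = o ∨ b j = 0 := by simpa using h hj
      have a3 : b o ≤ 1 := by simpa using ho.1
      split_ifs with z
      · rcases a1 with rfl | a1 <;> omega
      · rcases a1 with rfl | a1
        · rcases a2 with rfl | a2
          · exact absurd rfl z
          · omega
        · omega

theorem result (K : Type) [Field K] (n : ℕ) (M : Matroid (Fin n)) (hE : M.E = Set.univ)
    (hC : ∀ C D, M.IsCircuit C → M.IsCircuit D → C.ncard = D.ncard) :
    ∃ e0 : ℕ, ∀ j e : ℕ, n - M.eRank.toNat ≤ j → ¬ (j = n - M.eRank.toNat ∧ e = e0) →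
      TorZero (symb2 (SR K M)) j e := by
  classical
  have hN : M✶.E = Set.univ := hE
  have hc : n - M.eRank.toNat = rk M✶ univ := by
    have h1 := M.eRank_add_eRank_dual
    have h2 := rk_coe M univ
    have h3 := rk_coe M✶ univ
    rw [coe_univ, ← hE] at h2 h3
    rw [M.eRk_ground] at h2
    rw [show M.E = M✶.E from rfl, M✶.eRk_ground] at h3
    rw [← h2, ← h3, hE, Set.encard_univ, ENat.card_eq_coe_fintype_card, Fintype.card_fin] at h1
    have : rk M univ + rk M✶ univ = n := by exact_mod_cast h1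
    rw [← h2, ENat.toNat_natCast]; omega
  have ind : ∀ S : Finset (Fin n), M.Indep S ↔ rk M✶ univ ≤ rk M✶ Sᶜ := fun S => by
    rw [span_iff _ hN, ← Matroid.dual_coindep_iff, Matroid.coindep_iff_compl_spanning
      (by simp [hE]), hN, coe_compl, Set.compl_eq_univ_sdiff]
  have cir : ∀ H : Finset (Fin n), rk M✶ H + 1 = rk M✶ univ →
      (∀ e ∉ H, rk M✶ H < rk M✶ (insert e H)) → M.IsCircuit (Hᶜ : Finset (Fin n)) := by
    intro H h1 h2
    rw [Matroid.isCircuit_iff_dep_forall_sdiff_singleton_indep]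
    refine ⟨⟨by rw [ind, compl_compl]; omega, by simp [hE]⟩, fun e he => ?_⟩
    rw [← coe_erase, ind, compl_erase, compl_compl]
    have := h2 e (mem_compl.1 he)
    omega
  obtain ⟨s, hs⟩ : ∃ s, ∀ C, M.IsCircuit C → C.ncard = s := by
    by_cases x : ∃ D, M.IsCircuit D
    · obtain ⟨D, hD⟩ := x; exact ⟨_, fun C h => hC C D h hD⟩
    · exact ⟨0, fun C h => absurd ⟨C, h⟩ x⟩
  obtain ⟨d, hd⟩ := main (K := K) (rk_ok M✶ hN) (c := rk M✶ univ) (s := s) (by simp [rk])
    fun H h1 h2 => by rw [← hs _ (cir H h1 h2), Set.ncard_coe_finset]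
  rw [hc]
  refine ⟨d - rk M✶ univ, fun j e h1 h2 => reduce (NJ := fun b => ∀ D, M✶.IsBase D →
    ∃ i ∈ D, ∃ j ∈ D, Finsupp.single i 1 + Finsupp.single j 1 ≤ b) (fun f => ?_)
    fun α hα => (hd α j h1 fun x => h2 ⟨x.1, by omega⟩).congr fun τ _ => out_iff _ hN _⟩
  simp only [mem_symb M hE, mem_sq]
  exact ⟨fun h m hm D hD => h D hD m hm, fun h D hD m hm => h m hm D hD⟩

end Pool.Agent.Results.MP_d6b0b9_al.Level
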